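import Pool.Agent.Helper25_CN2.Stmts
import Pool.Agent.Helper4_CON.GCla

/-!
Squad CN2, module J_AX: elementary facts on the classes of A_n
-/

noncomputable section

namespace Pool.Agent.CN2.H2

open Pool.Agent.H25Cong Pool.Agent.CON Pool.Agent.CN2 Pool.Agent.CON.H4

section

variable {M : Type} [AddCommGroup M] {b : M → M → ℤ} {C : Set M} {s : ℤ} {n : ℕ} {v : Fin n → M}

/-- products of a combination of the frame with a frame vector -/
lemma ax_b1 (hb : PD b) (hC : Irr b C s) (hv : AFr b C s n v) (t : Fin n → ℤ) (j : Fin n) :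
    b (∑ i, t i • v i) (v j) = s * (t j + ∑ i, t i) := by
  rw [hb.sum_left]
  have : ∀ i, b (t i • v i) (v j) = s * t i + if i = j then s * t i else 0 := by
    intro i
    rw [hb.zsmul_left]
    split_ifs with h
    · rw [h, hC.norm _ (hv.1 j)]; ring
    · rw [hv.2 i j h]; ring
  rw [Finset.sum_congr rfl fun i _ => this i, Finset.sum_add_distrib, ← Finset.mul_sum,
    Finset.sum_ite_eq' Finset.univ j]
  simp
  ring

/-- the bilinear form in coordinates -/
lemma ax_b2 (hb : PD b) (hC : Irr b C s) (hv : AFr b C s n v) (t u : Fin n → ℤ) :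
    b (∑ i, t i • v i) (∑ i, u i • v i) = s * ((∑ i, t i) * (∑ i, u i) + ∑ i, t i * u i) := by
  rw [hb.sum_right]
  have : ∀ i, b (∑ i, t i • v i) (u i • v i) = s * (t i * u i) + s * ((∑ i, t i) * u i) := by
    intro i
    rw [hb.zsmul_right, ax_b1 hb hC hv]; ring
  rw [Finset.sum_congr rfl fun i _ => this i, Finset.sum_add_distrib, ← Finset.mul_sum,
    ← Finset.mul_sum, ← Finset.mul_sum]
  ring

lemma ax_mem (hv : AFr b C s n v) (t : Fin n → ℤ) :
    ∑ i, t i • v i ∈ AddSubgroup.closure C :=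
  AddSubgroup.sum_mem _ fun i _ =>
    AddSubgroup.zsmul_mem _ (AddSubgroup.subset_closure (hv.1 i)) _

/-- coordinates -/
lemma ax_co (hA : ∀ α ∈ C, InA v α) {z : M} (hz : z ∈ AddSubgroup.closure C) :
    ∃ t : Fin n → ℤ, z = ∑ i, t i • v i := by
  have hvi : ∀ i, v i = ∑ j, (Pi.single i 1 : Fin n → ℤ) j • v j := by
    intro i
    rw [Finset.sum_eq_single i]
    · simp
    · intro j _ hj
      rw [Pi.single_eq_of_ne hj]; simp
    · intro h; exact absurd (Finset.mem_univ _) h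
  induction hz using AddSubgroup.closure_induction with
  | mem z hz =>
    rcases hA z hz with ⟨i, h | h⟩ | ⟨i, j, _, h⟩
    · exact ⟨Pi.single i 1, by rw [h]; exact hvi i⟩
    · refine ⟨- Pi.single i 1, ?_⟩
      rw [h]
      conv_lhs => rw [hvi i]
      rw [← Finset.sum_neg_distrib]
      exact Finset.sum_congr rfl fun j _ => by rw [Pi.neg_apply, neg_smul]
    · refine ⟨Pi.single i 1 - Pi.single j 1, ?_⟩
      rw [h]
      conv_lhs => rw [hvi i, hvi j]
      rw [← Finset.sum_sub_distrib]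
      exact Finset.sum_congr rfl fun l _ => by rw [Pi.sub_apply, sub_smul]
  | zero => exact ⟨0, by simp⟩
  | add x y _ _ hx hy =>
    obtain ⟨t, ht⟩ := hx
    obtain ⟨u, hu⟩ := hy
    refine ⟨t + u, ?_⟩
    rw [ht, hu, ← Finset.sum_add_distrib]
    exact Finset.sum_congr rfl fun l _ => by rw [Pi.add_apply, add_smul]
  | neg x _ hx =>
    obtain ⟨t, ht⟩ := hx
    refine ⟨-t, ?_⟩
    rw [ht, ← Finset.sum_neg_distrib]
    exact Finset.sum_congr rfl fun l _ => by rw [Pi.neg_apply, neg_smul]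

/-- the coefficients of wA -/
def wc (n m : ℕ) (i : Fin n) : ℤ := (if (i : ℕ) < m then (n : ℤ) + 1 else 0) - m

lemma xA_eq (v : Fin n → M) (m : ℕ) : xA v m = ∑ i, xc m i • v i := rfl

lemma wA_eq (v : Fin n → M) (m : ℕ) : wA v m = ∑ i, wc n m i • v i := rfl

lemma wc_sum {m : ℕ} (hmn : m ≤ n) : ∑ i : Fin n, wc n m i = m := by
  unfold wc
  rw [Finset.sum_sub_distrib, xc_card hmn]
  simp
  ring

/-- the product with wA -/
lemma ax_bw (hb : PD b) (hC : Irr b C s) (hv : AFr b C s n v) {m : ℕ} (hmn : m ≤ n)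
    (y : Fin n → ℤ) : b (∑ i, y i • v i) (wA v m) =
      s * ((n + 1) * ∑ i : Fin n, if (i : ℕ) < m then y i else 0) := by
  rw [wA_eq, ax_b2 hb hC hv, wc_sum hmn, Finset.mul_sum, Finset.sum_mul,
    ← Finset.sum_add_distrib]
  congr 1
  apply Finset.sum_congr rfl
  intro i _
  unfold wc
  split_ifs <;> ring

/-- the product with xA -/
lemma ax_bx (hb : PD b) (hC : Irr b C s) (hv : AFr b C s n v) {m : ℕ} (hmn : m ≤ n)
    (hm : Even m) (y : Fin n → ℤ) : b (∑ i, y i • v i) (xA v m) =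
      s * ∑ i : Fin n, y i * xc m i := by
  rw [xA_eq, ax_b2 hb hC hv, xc_sum hmn hm]
  ring

end

/-- module J_AX -/
theorem j_ax : J_AX := by
  intro M _ b C s n m v hb hC hs hv hA hm1 hme hmn
  have hX0 := xc_sum hmn hme
  have hXX : b (xA v m) (xA v m) = s * m := by
    rw [xA_eq, ax_b2 hb hC hv, hX0, Finset.sum_congr rfl fun i _ => xc_sq i, xc_card hmn 1]
    ring
  have hso : (2 : ℤ) ∣ s - 1 := by omega
  refine ⟨ax_mem hv _, ax_mem hv _, ?_, ?_, ?_⟩
  · rw [hXX]
    obtain ⟨k, rfl⟩ := hme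
    obtain ⟨a, ha⟩ := hso
    refine ⟨k * a, ?_⟩
    have : s = 2 * a + 1 := by linarith
    rw [this]; push_cast; ring
  · have hn : 0 < n := by omega
    refine ⟨v ⟨0, hn⟩, AddSubgroup.subset_closure (hv.1 _), ?_⟩
    rw [xA_eq, ax_b1 hb hC hv, hX0, add_zero]
    unfold xc
    rw [if_pos (show (⟨0, hn⟩ : Fin n).1 < m from hm1)]
    simpa using hs
  · intro y hy
    obtain ⟨t, rfl⟩ := ax_co hA hy
    rw [ax_bw hb hC hv hmn, ax_bx hb hC hv hmn hme]
    have h2 : (2 : ℤ) ∣ (∑ i : Fin n, if (i : ℕ) < m then t i else 0) -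
        s * ∑ i : Fin n, t i * xc m i := by
      rw [Finset.mul_sum, ← Finset.sum_sub_distrib]
      apply Finset.dvd_sum
      intro i _
      unfold xc
      obtain ⟨a, ha⟩ := hso
      have hs1 : s = 2 * a + 1 := by linarith
      split_ifs with h
      · rcases neg_one_pow_eq_or ℤ i.1 with h | h <;> rw [h, hs1]
        · exact ⟨- a * t i, by ring⟩
        · exact ⟨t i * (a + 1), by ring⟩
      · simp
    obtain ⟨k, hk⟩ := h2
    refine ⟨k, ?_⟩
    have h3 : (∑ i : Fin n, if (i : ℕ) < m then t i else 0) =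
        s * (∑ i : Fin n, t i * xc m i) + 2 * k := by linarith
    rw [h3]; ring

end Pool.Agent.CN2.H2

end
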