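import Pool.Agent.Helper25_CN2.Stmts

/-!
Squad CN2, module I_BAS: a system of generators with Gram matrix of size n + 1 is a basis
-/

noncomputable section

namespace Pool.Agent.CN2.H2

open Pool.Agent.H25Cong Pool.Agent.CON Pool.Agent.CN2

/-- module I_BAS -/
theorem i_bas : I_BAS := by
  intro n L G hL hG
  obtain ⟨b, hb⟩ := hL
  obtain ⟨-, c, hcL, hcs, hcB⟩ := hG
  let c' : Fin (n + 1) → V n := fun i => c i
  have hr : c '' {i | i < n + 1} = Set.range c' := by
    ext x
    constructor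
    · rintro ⟨i, hi, rfl⟩
      exact ⟨⟨i, hi⟩, rfl⟩
    · rintro ⟨i, rfl⟩
      exact ⟨i.1, i.2, rfl⟩
  have hLs : ∀ x ∈ L, x ∈ Submodule.span ℤ (Set.range c') := by
    intro x hx
    have h1 := hcs x hx
    rw [hr] at h1
    rw [← Submodule.mem_toAddSubgroup, Submodule.span_int_eq_addSubgroupClosure]
    exact h1
  have htop : ⊤ ≤ Submodule.span ℝ (Set.range c') := by
    rw [← b.span_eq, Submodule.span_le]
    rintro _ ⟨i, rfl⟩
    have h1 : b i ∈ L := by
      rw [hb]; exact Submodule.subset_span ⟨i, rfl⟩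
    exact Submodule.span_subset_span ℤ ℝ _ (hLs _ h1)
  have hcard : Fintype.card (Fin (n + 1)) = Module.finrank ℝ (V n) := by
    simp [V]
  refine ⟨basisOfTopLeSpanOfCardEqFinrank c' htop hcard, ?_, ?_⟩
  · rw [coe_basisOfTopLeSpanOfCardEqFinrank]
    apply le_antisymm
    · exact hLs
    · rw [Submodule.span_le]
      rintro _ ⟨i, rfl⟩
      exact hcL i i.2
  · intro i j
    rw [coe_basisOfTopLeSpanOfCardEqFinrank]
    exact hcB i i.2 j j.2

end Pool.Agent.CN2.H2

end
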