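import Pool.Agent.Helper25_CN2.Stmts

/-!
Squad CN2, module I_CHG: change of basis
-/

noncomputable section

namespace Pool.Agent.CN2.H2

open Pool.Agent.H25Cong Pool.Agent.CON Pool.Agent.CN2

/-! ### entries of lists -/

lemma ic_dot : ∀ (m : ℕ) (u v : List ℤ), u.length ≤ m →
    dot u v = ∑ k ∈ Finset.range m, u.getD k 0 * v.getD k 0 := by
  intro m u
  induction u generalizing m with
  | nil =>
    intro v _
    simp [dot]
  | cons a u ih =>
    intro v h
    obtain ⟨m, rfl⟩ : ∃ m', m = m' + 1 := ⟨m - 1, by simp at h; omega⟩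
    cases v with
    | nil =>
      simp [dot]
    | cons c v =>
      have h1 := ih m v (by simpa using h)
      unfold dot at h1 ⊢
      rw [List.zipWith_cons_cons, List.sum_cons, h1, Finset.sum_range_succ']
      simp
      ring

lemma ic_mulT (A B : List (List ℤ)) {m i j : ℕ} (hi : i < A.length) (hj : j < B.length)
    (hA : ∀ u ∈ A, u.length ≤ m) :
    ent (mulT A B) i j = ∑ k ∈ Finset.range m, ent A i k * ent B j k := by
  have e1 : (mulT A B).getD i [] = B.map fun v => dot (A.getD i []) v := by
    unfold mulT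
    rw [List.getD_eq_getElem _ _ (by simpa using hi), List.getElem_map,
      List.getD_eq_getElem _ _ hi]
  unfold ent
  rw [e1, List.getD_eq_getElem _ _ (by simpa using hj), List.getElem_map,
    ic_dot m _ _ (hA _ (by rw [List.getD_eq_getElem _ _ hi]; exact List.getElem_mem hi)),
    List.getD_eq_getElem B _ hj]

lemma ic_mat (m : ℕ) (f : ℕ → ℕ → ℤ) {i j : ℕ} (hi : i < m) (hj : j < m) :
    ent (mat m f) i j = f i j := by
  have e1 : (mat m f).getD i [] = (List.range m).map fun j => f i j := by
    unfold mat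
    rw [List.getD_eq_getElem _ _ (by simpa using hi), List.getElem_map, List.getElem_range]
  unfold ent
  rw [e1, List.getD_eq_getElem _ _ (by simpa using hj), List.getElem_map, List.getElem_range]

/-- module I_CHG -/
theorem i_chg : I_CHG := by
  intro n L G T T' G' hG h
  obtain ⟨hGl, c, hcL, hcs, hcB⟩ := hG
  simp only [chg, Bool.and_eq_true, decide_eq_true_eq, List.all_eq_true] at h
  obtain ⟨⟨⟨⟨⟨⟨⟨⟨h1, h2⟩, -⟩, hT⟩, hT'⟩, hGr⟩, hTr⟩, hTr'⟩, hGt⟩ := h
  set m := n + 1 with hm
  -- entries of G'
  have hGsym : ∀ i < m, ∀ j < m, ent G i j = ent G j i := by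
    intro i hi j hj
    conv_lhs => rw [← hGt]
    unfold trn
    rw [ic_mat m _ hi hj]
  have hTG : (mulT T G).length = m := by simp [mulT, hT]
  have hG'l : G'.length = m := by rw [← h1]; simp [mulT, hT]
  have hG'e : ∀ i < m, ∀ j < m, ent G' i j =
      ∑ l ∈ Finset.range m, (∑ k ∈ Finset.range m, ent T i k * ent G l k) * ent T j l := by
    intro i hi j hj
    rw [← h1, ic_mulT (m := m) _ _ (by omega) (by omega) (by
      intro u hu
      unfold mulT at hu
      obtain ⟨w, -, rfl⟩ := List.mem_map.mp hu
      simp [hGl])]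
    apply Finset.sum_congr rfl
    intro l hl
    have hl' := Finset.mem_range.mp hl
    rw [ic_mulT (m := m) _ _ (by omega) (by omega) (fun u hu => (hTr u hu).le)]
  -- T' T = 1
  have hTT : ∀ i < m, ∀ j < m, ∑ k ∈ Finset.range m, ent T' i k * ent T k j =
      if i = j then 1 else 0 := by
    intro i hi j hj
    have e1 := congrArg (fun X => ent X i j) h2
    rw [ic_mat m _ hi hj, ic_mulT (m := m) _ _ (by omega) (by unfold trn mat; simp; omega)
      (fun u hu => (hTr' u hu).le)] at e1
    rw [← e1]
    apply Finset.sum_congr rfl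
    intro k hk
    have hk' := Finset.mem_range.mp hk
    unfold trn
    rw [ic_mat m _ hj hk']
  refine ⟨hG'l, fun i => ∑ j ∈ Finset.range m, ent T i j • c j, ?_, ?_, ?_⟩
  · intro i _
    exact L.sum_mem fun j hj => L.smul_mem _ (hcL j (Finset.mem_range.mp hj))
  · intro x hx
    have hx1 := hcs x hx
    refine AddSubgroup.closure_le _ |>.mpr ?_ hx1
    rintro _ ⟨j, hj, rfl⟩
    have hj' : j < m := hj
    have e1 : c j = ∑ i ∈ Finset.range m, ent T' j i • ∑ k ∈ Finset.range m, ent T i k • c k := by
      have e2 : ∀ i ∈ Finset.range m, ent T' j i • ∑ k ∈ Finset.range m, ent T i k • c k =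
          ∑ k ∈ Finset.range m, (ent T' j i * ent T i k) • c k := by
        intro i _
        rw [Finset.smul_sum]
        exact Finset.sum_congr rfl fun k _ => by rw [mul_smul]
      rw [Finset.sum_congr rfl e2, Finset.sum_comm]
      have e3 : ∀ k ∈ Finset.range m, ∑ i ∈ Finset.range m, (ent T' j i * ent T i k) • c k =
          (if j = k then (1 : ℤ) else 0) • c k := by
        intro k hk
        rw [← Finset.sum_smul, hTT j hj' k (Finset.mem_range.mp hk)]
      rw [Finset.sum_congr rfl e3, Finset.sum_eq_single j]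
      · simp
      · intro k _ hk
        rw [if_neg (Ne.symm hk)]; simp
      · intro h; exact absurd (Finset.mem_range.mpr hj') h
    show c j ∈ _
    rw [e1]
    refine AddSubgroup.sum_mem _ fun i hi => AddSubgroup.zsmul_mem _ ?_ _
    exact AddSubgroup.subset_closure ⟨i, Finset.mem_range.mp hi, rfl⟩
  · intro i hi j hj
    have ez : ∀ (z : ℤ) (x : V n), z • x = (z : ℝ) • x := fun z x =>
      (Int.cast_smul_eq_zsmul ℝ z x).symm
    rw [B_sum_left]
    have e1 : ∀ k ∈ Finset.range m, B (ent T i k • c k) (∑ l ∈ Finset.range m, ent T j l • c l) =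
        ∑ l ∈ Finset.range m, ((ent T i k * ent G l k * ent T j l : ℤ) : ℝ) := by
      intro k hk
      rw [B_sum_right]
      apply Finset.sum_congr rfl
      intro l hl
      rw [ez, ez, B_smul_left, B_smul_right, hcB k (Finset.mem_range.mp hk) l
        (Finset.mem_range.mp hl), hGsym k (Finset.mem_range.mp hk) l (Finset.mem_range.mp hl)]
      push_cast
      ring
    rw [Finset.sum_congr rfl e1, hG'e i hi j hj, Finset.sum_comm]
    push_cast
    apply Finset.sum_congr rfl
    intro l _
    rw [Finset.sum_mul]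

end Pool.Agent.CN2.H2

end
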